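import Pool.Agent.TH133.Defs

/-!
# Partial Chow-Kunneth decompositions: definitions
-/

set_option autoImplicit false

open CategoryTheory AlgebraicGeometry

universe u v w

namespace Pool.Agent.Q82.CK

open Pool.Agent.H914 Pool.Agent.H914.VarClass Pool.Agent.H914.VarClass.Obj Pool.Agent.W492.BB
  Pool.Agent.W550.Corr Pool.Agent.TH133

variable {k : Type u} [Field k] {𝒱 : VarClass k}

/-- The power `Γ ∘ ⋯ ∘ Γ` (`n` factors) of the self-correspondence `Γ`. -/
noncomputable def iterCor (C : TheoryData.{u, v, 0} 𝒱 ℚ) {X : 𝒱.Obj} (Γ : C.A (X.prod X)) :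
    ℕ → C.A (X.prod X)
  | 0 => dg C X
  | n + 1 => C.comp (iterCor C Γ n) Γ

/-- The self-correspondence `Γ` is nilpotent: some power is zero modulo rational equivalence. -/
def NilpotentCor (C : TheoryData.{u, v, 0} 𝒱 ℚ) {X : 𝒱.Obj} (Γ : C.A (X.prod X)) : Prop :=
  ∃ n, iterCor C Γ n = 0

/-- The self-correspondences `p i` of degree zero of `X`, for `i` in the finite set `I`, are mutually
orthogonal idempotents and `p i` acts on the cohomology of `X` as the projection onto `H^i(X)`. -/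
structure IsPartialCK {C : TheoryData.{u, v, 0} 𝒱 ℚ} {K : Type w} [Field K]
    (H : WeilTheoryData.{u, v, w} C K) (X : 𝒱.Obj) (I : Finset ℕ) (p : ℕ → C.A (X.prod X)) :
    Prop where
  deg : ∀ i ∈ I, C.Deg X.dim (p i)
  idem : ∀ i ∈ I, C.comp (p i) (p i) = p i
  orth : ∀ i ∈ I, ∀ j ∈ I, i ≠ j → C.comp (p i) (p j) = 0
  act_self : ∀ i ∈ I, ∀ a : H.A X, H.Deg i a → H.act (H.cl (p i)) a = a
  act_ne : ∀ i ∈ I, ∀ (m : ℤ) (a : H.A X), m ≠ i → H.Deg m a → H.act (H.cl (p i)) a = 0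

end Pool.Agent.Q82.CK
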