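import Pool.Agent.Q82.CK.Two
import Pool.Agent.Q82.CK.Defs
import Pool.Agent.TH133.SelfDual

/-!
# Self-dual Chow-Kunneth decompositions from the lower half
-/

set_option autoImplicit false
set_option linter.unusedSectionVars false

open CategoryTheory AlgebraicGeometry Polynomial

universe u v w

namespace Pool.Agent.Q82.CK

open Pool.Agent.H914 Pool.Agent.H914.VarClass Pool.Agent.H914.VarClass.Obj Pool.Agent.W492.BB
  Pool.Agent.W550.Corr Pool.Agent.TH133

variable {k : Type u} [Field k] {𝒱 : VarClass k}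

variable {C : TheoryData.{u, v, 0} 𝒱 ℚ} [hC : IsChowProj C] {X : 𝒱.Obj}

section chow

include hC

lemma iterCor_eq (L : Cor C X) (n : ℕ) : iterCor C (X := X) L n = (L ^ n : Cor C X) := by
  induction n with
  | zero => rfl
  | succ n ih =>
    have h1 : ∀ M : Cor C X, iterCor C (X := X) L n = M → iterCor C (X := X) L (n + 1) = L * M := by
      intro M hM
      rw [← hM]
      rfl
    rw [h1 _ ih, pow_succ']

lemma nilpotentCor_iff (L : Cor C X) : NilpotentCor C (X := X) L ↔ IsNilpotent L := by
  constructor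
  · rintro ⟨n, hn⟩
    exact ⟨n, (iterCor_eq L n).symm.trans hn⟩
  · rintro ⟨n, hn⟩
    exact ⟨n, (iterCor_eq L n).trans hn⟩

lemma tpR_pow (a : Cor C X) (n : ℕ) : tpR C X (a ^ n) = tpR C X a ^ n := by
  induction n with
  | zero => rw [pow_zero, pow_zero, tpR_one]
  | succ n ih => rw [pow_succ, tpR_mul, ih, pow_succ']

lemma tpR_aeval {a : Cor C X} (ha : tpR C X a = a) (f : ℚ[X]) : tpR C X (aeval a f) = aeval a f := by
  induction f using Polynomial.induction_on' with
  | add f g hf hg => rw [map_add, map_add, hf, hg]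
  | monomial n c => rw [aeval_monomial, ← Algebra.smul_def, tpR_smul, tpR_pow, ha]

lemma aeval_mem {a : Cor C X} (ha : a ∈ cor0 C X) (f : ℚ[X]) : aeval a f ∈ cor0 C X := by
  induction f using Polynomial.induction_on' with
  | add f g hf hg => rw [map_add]; exact (cor0 C X).add_mem hf hg
  | monomial n c =>
    rw [aeval_monomial, ← Algebra.smul_def]
    exact (cor0 C X).smul_mem ((cor0 C X).pow_mem ha n) c

lemma tt_mem {P Q : Cor C X} (hP : P ∈ cor0 C X) (hQ : Q ∈ cor0 C X) : tt P Q ∈ cor0 C X :=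
  (cor0 C X).add_mem ((cor0 C X).add_mem ((cor0 C X).sub_mem ((cor0 C X).sub_mem
    (cor0 C X).one_mem hP) hQ) ((cor0 C X).mul_mem hP hQ)) ((cor0 C X).mul_mem hQ hP)

lemma uu_mem {P Q : Cor C X} (hP : P ∈ cor0 C X) (hQ : Q ∈ cor0 C X) (N : ℕ) :
    uu P Q N ∈ cor0 C X :=
  (cor0 C X).add_mem ((cor0 C X).sub_mem ((cor0 C X).sub_mem ((cor0 C X).add_mem hP hQ)
    ((cor0 C X).mul_mem hQ hP)) ((cor0 C X).mul_mem hQ hP)) ((cor0 C X).pow_mem (tt_mem hP hQ) N)

lemma tpR_uu (P : Cor C X) (N : ℕ) :
    tpR C X (uu P (tpR C X P) N) = uu P (tpR C X P) N := by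
  have ht : tpR C X (tt P (tpR C X P)) = tt P (tpR C X P) := by
    rw [tt, map_add, map_add, map_sub, map_sub, tpR_one, tpR_mul, tpR_mul, tpR_tpR]
    abel
  rw [uu, map_add, map_sub, map_sub, map_add, tpR_mul, tpR_tpR, tpR_pow, ht]
  abel

end chow

section weil

variable {K : Type w} [Field K] {H : WeilTheoryData.{u, v, w} C K} [hH : IsWeilProj H]

include hC hH

/-- The transpose of an operator which acts by scalars on every `H^m`. -/
lemma act_tp_scal {Γ : C.A (X.prod X)} {χ : ℤ → K}
    (h : ∀ m, ∀ a ∈ H.gr X m, H.act (H.cl Γ) a = χ m • a) (m : ℤ) {b : H.A X}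
    (hb : b ∈ H.gr X m) : H.act (H.cl (tp C Γ)) b = χ (2 * X.dim - m) • b := by
  rw [← sub_eq_zero]
  apply H.nondeg
  have h2 : H.tr X ∘ₗ LinearMap.mulLeft K (H.act (H.cl (tp C Γ)) b) =
      H.tr X ∘ₗ LinearMap.mulLeft K (χ (2 * X.dim - m) • b) := by
    apply ext_gr H
    intro l a ha
    rw [LinearMap.comp_apply, LinearMap.comp_apply, LinearMap.mulLeft_apply,
      LinearMap.mulLeft_apply, tr_act' H, h l a ha, mul_smul_comm, smul_mul_assoc, map_smul,
      map_smul]
    by_cases hl : l = 2 * X.dim - m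
    · rw [hl]
    · rw [tr_zero H (H.mul_mem hb ha) (by omega), smul_zero, smul_zero]
  intro a
  have h3 := LinearMap.congr_fun h2 a
  rw [LinearMap.comp_apply, LinearMap.comp_apply, LinearMap.mulLeft_apply,
    LinearMap.mulLeft_apply] at h3
  rw [sub_mul, map_sub, h3, sub_self]

/-- The action of the unit on the cohomology. -/
lemma actH_uu {P Q : Cor C X} (hP : P * P = P) (hQ : Q * Q = Q)
    (h1 : actH C X H P * actH C X H Q = 0) (h2 : actH C X H Q * actH C X H P = 0) {N : ℕ}
    (hN : 0 < N) : actH C X H (uu P Q N) = 1 := by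
  have hP' : actH C X H P * actH C X H P = actH C X H P := by rw [← map_mul, hP]
  have hQ' : actH C X H Q * actH C X H Q = actH C X H Q := by rw [← map_mul, hQ]
  have ht : actH C X H (tt P Q) = 1 - actH C X H P - actH C X H Q := by
    rw [tt, map_add, map_add, map_sub, map_sub, map_one, map_mul, map_mul, h1, h2, add_zero,
      add_zero]
  have hid : (1 - actH C X H P - actH C X H Q) * (1 - actH C X H P - actH C X H Q) =
      1 - actH C X H P - actH C X H Q := by
    rw [sub_mul, sub_mul, one_mul, mul_sub, mul_sub, mul_sub, mul_sub, mul_one, mul_one, hP', hQ',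
      h1, h2]
    abel
  have hpow : ∀ n, (1 - actH C X H P - actH C X H Q) ^ (n + 1) =
      1 - actH C X H P - actH C X H Q := by
    intro n
    induction n with
    | zero => rw [zero_add, pow_one]
    | succ n ih => rw [pow_succ, ih, hid]
  obtain ⟨n, rfl⟩ := Nat.exists_eq_succ_of_ne_zero hN.ne'
  rw [uu, map_add, map_sub, map_sub, map_add, map_mul, h2, map_pow, ht, Nat.succ_eq_add_one, hpow]
  abel

lemma actH_aeval {n : Cor C X} (hn : actH C X H n = 0) {f : ℚ[X]} (hf : f.coeff 0 = 1) :
    actH C X H (aeval n f) = 1 := by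
  obtain ⟨h, hh⟩ : (Polynomial.X : ℚ[X]) ∣ f - 1 := by
    rw [X_dvd_iff]
    simp [hf]
  have e : f = 1 + Polynomial.X * h := by
    rw [← hh]
    ring
  rw [e, map_add, map_one, map_mul (aeval n), aeval_X, map_add, map_one, map_mul, hn, zero_mul,
    add_zero]

/-- The sum of a decomposition of a part. -/
lemma IsPartialCK.mul_eq {I : Finset ℕ} {p : ℕ → Cor C X} (h : IsPartialCK H X I p) {i j : ℕ}
    (hi : i ∈ I) (hj : j ∈ I) : p i * p j = if i = j then p i else 0 := by
  rw [cor_mul]
  split_ifs with hij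
  · subst hij
    exact h.idem i hi
  · exact h.orth j hj i hi (Ne.symm hij)

lemma IsPartialCK.mul_sum {I : Finset ℕ} {p : ℕ → Cor C X}
    (h : IsPartialCK H X I p) {i : ℕ} (hi : i ∈ I) : p i * (∑ j ∈ I, p j) = p i := by
  rw [Finset.mul_sum, Finset.sum_eq_single i]
  · exact (h.mul_eq hi hi).trans (if_pos rfl)
  · intro j hj hne
    exact (h.mul_eq hi hj).trans (if_neg (Ne.symm hne))
  · intro h'
    exact absurd hi h'

lemma IsPartialCK.sum_mul {I : Finset ℕ} {p : ℕ → Cor C X}
    (h : IsPartialCK H X I p) {i : ℕ} (hi : i ∈ I) : (∑ j ∈ I, p j) * p i = p i := by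
  rw [Finset.sum_mul, Finset.sum_eq_single i]
  · exact (h.mul_eq hi hi).trans (if_pos rfl)
  · intro j hj hne
    exact (h.mul_eq hj hi).trans (if_neg hne)
  · intro h'
    exact absurd hi h'

lemma IsPartialCK.sum_idem {I : Finset ℕ} {p : ℕ → Cor C X}
    (h : IsPartialCK H X I p) : (∑ j ∈ I, p j) * (∑ j ∈ I, p j) = ∑ j ∈ I, p j := by
  rw [Finset.sum_mul]
  exact Finset.sum_congr rfl fun j hj => h.mul_sum hj

lemma IsPartialCK.sum_mem {I : Finset ℕ} {p : ℕ → Cor C X}
    (h : IsPartialCK H X I p) : ∑ j ∈ I, p j ∈ cor0 C X :=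
  (cor0 C X).sum_mem fun j hj => h.deg j hj

lemma IsPartialCK.actH_eq {I : Finset ℕ} {p : ℕ → Cor C X}
    (h : IsPartialCK H X I p) {i : ℕ} (hi : i ∈ I) (m : ℤ) {a : H.A X} (ha : a ∈ H.gr X m) :
    actH C X H (p i) a = if m = i then a else 0 := by
  split_ifs with h1
  · subst h1
    exact h.act_self i hi a ha
  · exact h.act_ne i hi m a h1 ha

lemma IsPartialCK.actH_sum {I : Finset ℕ} {p : ℕ → Cor C X}
    (h : IsPartialCK H X I p) (m : ℤ) {a : H.A X} (ha : a ∈ H.gr X m) :
    actH C X H (∑ j ∈ I, p j) a = if ∃ j ∈ I, m = j then a else 0 := by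
  rw [map_sum, LinearMap.sum_apply, Finset.sum_congr rfl fun j hj => h.actH_eq hj m ha]
  split_ifs with h1
  · obtain ⟨j, hj, hm⟩ := h1
    rw [Finset.sum_eq_single j]
    · rw [if_pos hm]
    · intro l _ hne
      rw [if_neg (by rw [hm]; intro h2; exact hne (by exact_mod_cast h2.symm))]
    · intro h'
      exact absurd hj h'
  · refine Finset.sum_eq_zero fun j hj => if_neg fun h2 => h1 ⟨j, hj, h2⟩

/-- **Self-dual decompositions from the lower half.** -/
theorem selfDual_of_nilpotent {p : ℕ → Cor C X} (h : IsPartialCK H X (Finset.range X.dim) p)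
    (hnil : IsNilpotent ((∑ j ∈ Finset.range X.dim, p j) *
      tpR C X (∑ j ∈ Finset.range X.dim, p j))) : ∃ π, IsCK H X π ∧ IsSelfDual C π := by
  set d := X.dim with hd
  set P : Cor C X := ∑ j ∈ Finset.range d, p j with hPdef
  set Q : Cor C X := tpR C X P with hQdef
  have hP : P * P = P := h.sum_idem
  have hQ : Q * Q = Q := by rw [hQdef, ← tpR_mul, hP]
  obtain ⟨N, hN0⟩ := hnil
  have h0 : (P * Q) ^ (N + 1) = 0 := by rw [pow_succ, hN0, zero_mul]
  have hN : 0 < N + 1 := Nat.succ_pos N
  have hPm : P ∈ cor0 C X := h.sum_mem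
  have hQm : Q ∈ cor0 C X := tpR_mem hPm
  have hPact : ∀ m, ∀ a ∈ H.gr X m, H.act (H.cl (X := X.prod X) P) a =
      (if ∃ j ∈ Finset.range d, m = (j : ℤ) then (1 : K) else 0) • a := by
    intro m a ha
    have := h.actH_sum m ha
    rw [← hPdef, actH_apply] at this
    rw [this]
    split_ifs <;> simp
  have hQact : ∀ m, ∀ a ∈ H.gr X m, actH C X H Q a =
      (if ∃ j ∈ Finset.range d, 2 * (X.dim : ℤ) - m = (j : ℤ) then (1 : K) else 0) • a :=
    fun m a ha => act_tp_scal (X := X) (Γ := P) (H := H) hPact m ha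
  have hPact' : ∀ m, ∀ a ∈ H.gr X m, actH C X H P a =
      (if ∃ j ∈ Finset.range d, m = (j : ℤ) then (1 : K) else 0) • a := hPact
  have hPQ : actH C X H P * actH C X H Q = 0 := by
    apply ext_gr H
    intro m a ha
    rw [Module.End.mul_apply, hQact m a ha, map_smul, hPact' m a ha, smul_smul,
      LinearMap.zero_apply]
    split_ifs with h1 h2
    · obtain ⟨j, hj, hj'⟩ := h1
      obtain ⟨l, hl, hl'⟩ := h2
      rw [Finset.mem_range] at hj hl
      omega
    · simp
    · simp
    · simp
  have hQP : actH C X H Q * actH C X H P = 0 := by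
    apply ext_gr H
    intro m a ha
    rw [Module.End.mul_apply, hPact' m a ha, map_smul, hQact m a ha, smul_smul,
      LinearMap.zero_apply]
    split_ifs with h1 h2
    · obtain ⟨j, hj, hj'⟩ := h1
      obtain ⟨l, hl, hl'⟩ := h2
      rw [Finset.mem_range] at hj hl
      omega
    · simp
    · simp
    · simp
  obtain ⟨f, g, hf, hg, hVV, hVW, hWV⟩ := exists_units (n_nilpotent hP hQ hN h0)
  set n : Cor C X := uu P Q (N + 1) - 1 with hn
  set V : Cor C X := aeval n f with hV
  set W : Cor C X := aeval n g with hW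
  have hnm : n ∈ cor0 C X := (cor0 C X).sub_mem (uu_mem hPm hQm _) (cor0 C X).one_mem
  have htn : tpR C X n = n := by
    rw [hn, map_sub, tpR_one, hQdef, tpR_uu]
  have htV : tpR C X V = V := tpR_aeval htn f
  have htW : tpR C X W = W := tpR_aeval htn g
  have hnact : actH C X H n = 0 := by
    rw [hn, map_sub, actH_uu hP hQ hPQ hQP hN, map_one, sub_self]
  have hVact : actH C X H V = 1 := actH_aeval hnact hf
  have hWact : actH C X H W = 1 := actH_aeval hnact hg
  have hU : V * V = uu P Q (N + 1) := by rw [hVV, hn]; abel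
  have hQVP : Q * (V * V) * P = 0 := by rw [hU]; exact Q_uu_P hP hQ hN h0
  have hPWQ : P * (W * W) * Q = 0 := by
    apply P_inv_Q hP hQ hN h0
    · rw [← hU]
      calc V * V * (W * W) = V * (V * W) * W := by simp only [mul_assoc]
        _ = 1 := by rw [hVW, mul_one, hVW]
    · rw [← hU]
      calc W * W * (V * V) = W * (W * V) * V := by simp only [mul_assoc]
        _ = 1 := by rw [hWV, mul_one, hWV]
  let q : ℕ → Cor C X := fun i => if i < d then V * p i * W else 0
  have hq1 : ∀ i, i < d → q i = V * p i * W := fun i hi => if_pos hi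
  have hq2 : ∀ i, ¬ i < d → q i = 0 := fun i hi => if_neg hi
  have hpP : ∀ i, i < d → p i * P = p i := fun i hi => h.mul_sum (Finset.mem_range.2 hi)
  have hPp : ∀ i, i < d → P * p i = p i := fun i hi => h.sum_mul (Finset.mem_range.2 hi)
  have htp : ∀ i, i < d → Q * tpR C X (p i) = tpR C X (p i) := fun i hi => by
    rw [hQdef, ← tpR_mul, hpP i hi]
  have htp' : ∀ i, i < d → tpR C X (p i) * Q = tpR C X (p i) := fun i hi => by
    rw [hQdef, ← tpR_mul, hPp i hi]
  have htq : ∀ i, i < d → tpR C X (q i) = W * tpR C X (p i) * V := fun i hi => by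
    rw [hq1 i hi, tpR_mul, tpR_mul, htV, htW, mul_assoc]
  have hqact : ∀ i, i < d → actH C X H (q i) = actH C X H (p i) := fun i hi => by
    rw [hq1 i hi, map_mul, map_mul, hVact, hWact, one_mul, mul_one]
  have hqact' : ∀ i, i < d → actH C X H (tpR C X (q i)) = actH C X H (tpR C X (p i)) :=
    fun i hi => by
      rw [htq i hi, map_mul, map_mul, hVact, hWact, one_mul, mul_one]
  have hVm : V ∈ cor0 C X := aeval_mem hnm f
  have hWm : W ∈ cor0 C X := aeval_mem hnm g
  apply selfDual_of_half (H := H) q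
  · intro i
    by_cases hi : i < d
    · rw [hq1 i hi]
      exact (cor0 C X).mul_mem ((cor0 C X).mul_mem hVm (h.deg i (Finset.mem_range.2 hi))) hWm
    · rw [hq2 i hi]
      exact (cor0 C X).zero_mem
  · intro i hi
    exact hq2 i (by omega)
  · intro i j
    by_cases hi : i < d
    · by_cases hj : j < d
      · have e := h.mul_eq (Finset.mem_range.2 hi) (Finset.mem_range.2 hj)
        have e1 : q i * q j = V * (p i * p j) * W := by
          rw [hq1 i hi, hq1 j hj]
          calc V * p i * W * (V * p j * W) = V * p i * (W * V) * p j * W := by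
                simp only [mul_assoc]
            _ = V * (p i * p j) * W := by rw [hWV]; simp only [mul_assoc, one_mul]
        rw [e1]
        have e' : p i * p j = if i = j then p i else 0 := e
        rw [e']
        split_ifs
        · rw [hq1 i hi]
        · rw [mul_zero, zero_mul]
      · rw [hq2 j hj, mul_zero, if_neg (by omega)]
    · rw [hq2 i hi, zero_mul]
      split_ifs
      · rfl
      · rfl
  · intro i j
    by_cases hi : i < d
    · by_cases hj : j < d
      · rw [hq1 i hi, htq j hj]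
        calc V * p i * W * (W * tpR C X (p j) * V)
            = V * (p i * P) * W * (W * (Q * tpR C X (p j)) * V) := by rw [hpP i hi, htp j hj]
          _ = V * p i * (P * (W * W) * Q) * tpR C X (p j) * V := by simp only [mul_assoc]
          _ = 0 := by rw [hPWQ]; simp
      · rw [hq2 j hj, map_zero, mul_zero]
    · rw [hq2 i hi, zero_mul]
  · intro i j
    by_cases hi : i < d
    · by_cases hj : j < d
      · rw [hq1 j hj, htq i hi]
        calc W * tpR C X (p i) * V * (V * p j * W)
            = W * (tpR C X (p i) * Q) * V * (V * (P * p j) * W) := by rw [hPp j hj, htp' i hi]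
          _ = W * tpR C X (p i) * (Q * (V * V) * P) * p j * W := by simp only [mul_assoc]
          _ = 0 := by rw [hQVP]; simp
      · rw [hq2 j hj, mul_zero]
    · rw [hq2 i hi, map_zero, zero_mul]
  · intro i m a hi ha
    rw [hqact i hi]
    exact h.actH_eq (Finset.mem_range.2 hi) m ha
  · intro i m a hi ha
    rw [hqact' i hi]
    have h1 : ∀ m, ∀ a ∈ H.gr X m, H.act (H.cl (X := X.prod X) (p i)) a =
        (if m = (i : ℤ) then (1 : K) else 0) • a := by
      intro m a ha
      have := h.actH_eq (Finset.mem_range.2 hi) m ha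
      rw [actH_apply] at this
      rw [this]
      split_ifs <;> simp
    have h2 := act_tp_scal (X := X) (Γ := p i) (H := H) h1 m ha
    have h3 : actH C X H (tpR C X (p i)) a = (if 2 * (X.dim : ℤ) - m = (i : ℤ) then (1 : K) else 0) • a := h2
    rw [h3]
    by_cases h4 : m = ((2 * X.dim - i : ℕ) : ℤ)
    · rw [if_pos h4, if_pos (by omega), one_smul]
    · rw [if_neg h4, if_neg (by omega), zero_smul]

end weil

end Pool.Agent.Q82.CK
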