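import Pool.Agent.Q82.CK.Half

/-!
# Chow-Kunneth decompositions from two parts
-/

set_option autoImplicit false
set_option linter.unusedSectionVars false

open CategoryTheory AlgebraicGeometry Polynomial

universe u v w

namespace Pool.Agent.Q82.CK

open Pool.Agent.H914 Pool.Agent.H914.VarClass Pool.Agent.H914.VarClass.Obj Pool.Agent.W492.BB
  Pool.Agent.W550.Corr Pool.Agent.TH133

variable {k : Type u} [Field k] {𝒱 : VarClass k}

variable {C : TheoryData.{u, v, 0} 𝒱 ℚ} [hC : IsChowProj C] {X : 𝒱.Obj}
  {K : Type w} [Field K] {H : WeilTheoryData.{u, v, w} C K} [hH : IsWeilProj H]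

include hC hH

/-- A Chow-Kunneth decomposition restricts to subsets of the degrees. -/
lemma ck_part {π : ℕ → C.A (X.prod X)} (h : IsCK H X π) (I : Finset ℕ) :
    IsPartialCK H X I π where
  deg i _ := h.deg i
  idem i _ := h.idem i
  orth i _ j _ hij := h.orth i j hij
  act_self i _ := h.act_self i
  act_ne i _ := h.act_ne i

/-- **Self-dual decompositions.** -/
theorem selfDual_iff : (∃ π, IsCK H X π ∧ IsSelfDual C π) ↔
    ∃ p, IsPartialCK H X (Finset.range X.dim) p ∧
      NilpotentCor C (C.comp (tp C (∑ i ∈ Finset.range X.dim, p i))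
        (∑ i ∈ Finset.range X.dim, p i)) := by
  constructor
  · rintro ⟨π, hπ, hsd⟩
    refine ⟨π, ck_part hπ _, ?_⟩
    let P : ℕ → Cor C X := π
    have h0 : (∑ i ∈ Finset.range X.dim, P i) * tpR C X (∑ i ∈ Finset.range X.dim, P i) = 0 := by
      rw [map_sum, Finset.sum_mul_sum]
      refine Finset.sum_eq_zero fun i hi => Finset.sum_eq_zero fun j hj => ?_
      rw [Finset.mem_range] at hi hj
      have h1 : tpR C X (P j) = P (2 * X.dim - j) := hsd j (by omega)
      rw [h1]
      exact hπ.orth _ _ (by omega)
    refine (nilpotentCor_iff ((∑ i ∈ Finset.range X.dim, P i) *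
      tpR C X (∑ i ∈ Finset.range X.dim, P i))).2 ?_
    rw [h0]
    exact IsNilpotent.zero
  · rintro ⟨p, hp, hnil⟩
    exact selfDual_of_nilpotent (p := p) hp ((nilpotentCor_iff _).1 hnil)

/-- Completion by a homologically trivial projector. -/
theorem complete (r : ℕ → Cor C X) (hm : ∀ n, r n ∈ cor0 C X)
    (hout : ∀ n, 2 * X.dim < n → r n = 0) (hrr : ∀ m n, r m * r n = if m = n then r m else 0)
    (hact : ∀ (n : ℕ) (m : ℤ) (a : H.A X), n ≤ 2 * X.dim → a ∈ H.gr X m →
      actH C X H (r n) a = if m = n then a else 0) : ∃ π, IsCK H X π := by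
  classical
  set S : Cor C X := ∑ i ∈ Finset.range (2 * X.dim + 1), r i with hS
  have hSr : ∀ n, S * r n = r n := by
    intro n
    by_cases hn : n ≤ 2 * X.dim
    · rw [hS, Finset.sum_mul, Finset.sum_eq_single n]
      · rw [hrr, if_pos rfl]
      · intro m _ hne
        rw [hrr, if_neg hne]
      · intro h
        exact absurd (Finset.mem_range.2 (by omega)) h
    · rw [hout n (by omega), mul_zero]
  have hrS : ∀ n, r n * S = r n := by
    intro n
    by_cases hn : n ≤ 2 * X.dim
    · rw [hS, Finset.mul_sum, Finset.sum_eq_single n]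
      · rw [hrr, if_pos rfl]
      · intro m _ hne
        rw [hrr, if_neg (Ne.symm hne)]
      · intro h
        exact absurd (Finset.mem_range.2 (by omega)) h
    · rw [hout n (by omega), zero_mul]
  have hSS : S * S = S := by
    conv_lhs => rw [hS, Finset.sum_mul]
    rw [Finset.sum_congr rfl fun i _ => hrS i]
  have hSm : S ∈ cor0 C X := (cor0 C X).sum_mem fun i _ => hm i
  set ρ : Cor C X := 1 - S with hρ
  have hρr : ∀ n, ρ * r n = 0 := fun n => by rw [hρ, sub_mul, one_mul, hSr, sub_self]
  have hrρ : ∀ n, r n * ρ = 0 := fun n => by rw [hρ, mul_sub, mul_one, hrS, sub_self]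
  have hρρ : ρ * ρ = ρ := by
    rw [hρ, sub_mul, one_mul, mul_sub, mul_one, hSS]
    abel
  have hρact : ∀ (m : ℤ) (a : H.A X), a ∈ H.gr X m → actH C X H ρ a = 0 := by
    intro m a ha
    by_cases ha0 : a = 0
    · rw [ha0, map_zero]
    · have h0 := nonneg_of_mem H ha ha0
      have h1 : m ≤ 2 * X.dim := by
        by_contra h'
        rw [gr_top H (by omega)] at ha
        exact ha0 ((Submodule.mem_bot _).1 ha)
      rw [hρ, map_sub, map_one, LinearMap.sub_apply, Module.End.one_apply, hS, map_sum,
        LinearMap.sum_apply, Finset.sum_eq_single m.toNat]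
      · rw [hact _ m a (by omega) ha, if_pos (by omega), sub_self]
      · intro i hi hne
        rw [Finset.mem_range] at hi
        rw [hact i m a (by omega) ha, if_neg (by omega)]
      · intro h
        exact absurd (Finset.mem_range.2 (by omega)) h
  let π : ℕ → Cor C X := fun i => r i + if i = 0 then ρ else 0
  have hmul : ∀ i j, π i * π j = if i = j then π i else 0 := by
    intro i j
    show (r i + if i = 0 then ρ else 0) * (r j + if j = 0 then ρ else 0) = _
    rw [add_mul, mul_add, mul_add, hrr]
    by_cases hij : i = j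
    · subst hij
      rw [if_pos rfl, if_pos rfl]
      by_cases hi : i = 0
      · simp only [hi, if_true, hρr, hrρ, hρρ, zero_add, add_zero]
        rfl
      · simp only [if_neg hi, mul_zero, zero_mul, add_zero]
        show r i = r i + if i = 0 then ρ else 0
        rw [if_neg hi, add_zero]
    · rw [if_neg hij, if_neg hij]
      by_cases hi : i = 0
      · have hj : j ≠ 0 := fun h => hij (hi.trans h.symm)
        simp only [if_pos hi, if_neg hj, mul_zero, hρr, add_zero]
      · by_cases hj : j = 0
        · simp only [if_neg hi, if_pos hj, zero_mul, hrρ, add_zero]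
        · simp only [if_neg hi, if_neg hj, mul_zero, zero_mul, add_zero]
  have hπact : ∀ (i : ℕ) (m : ℤ) (a : H.A X), a ∈ H.gr X m →
      actH C X H (π i) a = if m = i then a else 0 := by
    intro i m a ha
    show actH C X H (r i + if i = 0 then ρ else 0) a = _
    rw [map_add, LinearMap.add_apply]
    have e : actH C X H (if i = 0 then ρ else 0) a = 0 := by
      by_cases hi : i = 0
      · rw [if_pos hi, hρact m a ha]
      · rw [if_neg hi, map_zero, LinearMap.zero_apply]
    rw [e, add_zero]
    by_cases hi : i ≤ 2 * X.dim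
    · exact hact i m a hi ha
    · rw [hout i (by omega), map_zero, LinearMap.zero_apply]
      split_ifs with h1
      · subst h1
        rw [gr_top H (by omega)] at ha
        exact ((Submodule.mem_bot _).1 ha).symm
      · rfl
  refine ⟨π, {
    deg := fun i => ?_
    out := fun i hi => ?_
    idem := fun i => (hmul i i).trans (if_pos rfl)
    orth := fun i j hij => (hmul j i).trans (if_neg (Ne.symm hij))
    sum := ?_
    act_self := fun i a ha => (hπact i i a ha).trans (if_pos rfl)
    act_ne := fun i m a hm ha => (hπact i m a ha).trans (if_neg hm) }⟩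
  · have : π i ∈ cor0 C X := by
      refine (cor0 C X).add_mem (hm i) ?_
      by_cases hi : i = 0
      · rw [if_pos hi]
        exact (cor0 C X).sub_mem (cor0 C X).one_mem hSm
      · rw [if_neg hi]
        exact (cor0 C X).zero_mem
    exact this
  · show r i + (if i = 0 then ρ else 0) = 0
    rw [hout i hi, if_neg (by omega), add_zero]
  · have h1 : ∑ i ∈ Finset.range (2 * X.dim + 1), π i = (1 : Cor C X) := by
      show ∑ i ∈ Finset.range (2 * X.dim + 1), (r i + if i = 0 then ρ else 0) = (1 : Cor C X)
      rw [Finset.sum_add_distrib, ← hS, Finset.sum_ite_eq' , if_pos (Finset.mem_range.2 (by omega)),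
        hρ]
      abel
    exact h1

/-- **Existence from two parts.** -/
theorem ck_iff {I : Finset ℕ} (hI : I ⊆ Finset.range (2 * X.dim + 1)) : (∃ π, IsCK H X π) ↔
    ∃ p q, IsPartialCK H X I p ∧ IsPartialCK H X (Finset.range (2 * X.dim + 1) \ I) q ∧
      NilpotentCor C (C.comp (∑ i ∈ Finset.range (2 * X.dim + 1) \ I, q i) (∑ i ∈ I, p i)) := by
  classical
  set J := Finset.range (2 * X.dim + 1) \ I with hJ
  constructor
  · rintro ⟨π, hπ⟩
    refine ⟨π, π, ck_part hπ _, ck_part hπ _, ?_⟩
    let P : ℕ → Cor C X := π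
    have h0 : (∑ i ∈ I, P i) * (∑ i ∈ J, P i) = 0 := by
      rw [Finset.sum_mul_sum]
      refine Finset.sum_eq_zero fun i hi => Finset.sum_eq_zero fun j hj => ?_
      rw [hJ, Finset.mem_sdiff] at hj
      exact hπ.orth _ _ (fun h => hj.2 (h ▸ hi))
    refine (nilpotentCor_iff ((∑ i ∈ I, P i) * (∑ i ∈ J, P i))).2 ?_
    rw [h0]
    exact IsNilpotent.zero
  · rintro ⟨p, q, hp, hq, hnil⟩
    have hnil' := (nilpotentCor_iff _).1 hnil
    let p' : ℕ → Cor C X := p
    let q' : ℕ → Cor C X := q
    have hp' : IsPartialCK H X I p' := hp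
    have hq' : IsPartialCK H X J q' := hq
    set P : Cor C X := ∑ i ∈ I, p' i with hPdef
    set Q : Cor C X := ∑ i ∈ J, q' i with hQdef
    have hP : P * P = P := hp'.sum_idem
    have hQ : Q * Q = Q := hq'.sum_idem
    obtain ⟨N, hN0⟩ : ∃ N, (P * Q) ^ N = 0 := hnil'
    have h0 : (Q * P) ^ (N + 1) = 0 := by
      have h1 : ∀ n : ℕ, (Q * P) ^ (n + 1) = Q * (P * Q) ^ n * P := by
        intro n
        induction n with
        | zero => simp
        | succ n ih =>
          rw [pow_succ, ih, pow_succ]
          simp only [mul_assoc]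
      rw [h1, hN0, mul_zero, zero_mul]
    have hN : 0 < N + 1 := Nat.succ_pos N
    have hPm : P ∈ cor0 C X := hp'.sum_mem
    have hQm : Q ∈ cor0 C X := hq'.sum_mem
    have hPQ : actH C X H P * actH C X H Q = 0 := by
      apply ext_gr H
      intro m a ha
      rw [Module.End.mul_apply, hq'.actH_sum m ha, LinearMap.zero_apply]
      split_ifs with h1
      · rw [hp'.actH_sum m ha, if_neg]
        rintro ⟨i, hi, hmi⟩
        obtain ⟨j, hj, hmj⟩ := h1
        rw [hJ, Finset.mem_sdiff] at hj
        have : i = j := by omega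
        exact hj.2 (this ▸ hi)
      · exact map_zero _
    have hQP : actH C X H Q * actH C X H P = 0 := by
      apply ext_gr H
      intro m a ha
      rw [Module.End.mul_apply, hp'.actH_sum m ha, LinearMap.zero_apply]
      split_ifs with h1
      · rw [hq'.actH_sum m ha, if_neg]
        rintro ⟨j, hj, hmj⟩
        obtain ⟨i, hi, hmi⟩ := h1
        rw [hJ, Finset.mem_sdiff] at hj
        have : i = j := by omega
        exact hj.2 (this ▸ hi)
      · exact map_zero _
    obtain ⟨f, g, hf, hg, hVV, hVW, hWV⟩ := exists_units (n_nilpotent hQ hP hN h0)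
    set n : Cor C X := uu Q P (N + 1) - 1 with hn
    set U : Cor C X := uu Q P (N + 1) with hU
    have hUU : aeval n f * aeval n f = U := by rw [hVV, hn]; abel
    set U' : Cor C X := aeval n g * aeval n g with hU'
    have hUU' : U * U' = 1 := by
      rw [← hUU, hU']
      calc aeval n f * aeval n f * (aeval n g * aeval n g) =
            aeval n f * (aeval n f * aeval n g) * aeval n g := by simp only [mul_assoc]
        _ = 1 := by rw [hVW, mul_one, hVW]
    have hU'U : U' * U = 1 := by
      rw [← hUU, hU']
      calc aeval n g * aeval n g * (aeval n f * aeval n f) =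
            aeval n g * (aeval n g * aeval n f) * aeval n f := by simp only [mul_assoc]
        _ = 1 := by rw [hWV, mul_one, hWV]
    have hUm : U ∈ cor0 C X := uu_mem hQm hPm _
    have hnm : n ∈ cor0 C X := (cor0 C X).sub_mem hUm (cor0 C X).one_mem
    have hU'm : U' ∈ cor0 C X := (cor0 C X).mul_mem (aeval_mem hnm g) (aeval_mem hnm g)
    have hUact : actH C X H U = 1 := actH_uu hQ hP hQP hPQ hN
    have hnact : actH C X H n = 0 := by rw [hn, map_sub, hUact, map_one, sub_self]
    have hU'act : actH C X H U' = 1 := by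
      rw [hU', map_mul, actH_aeval hnact hg, one_mul]
    have hPUQ : P * U * Q = 0 := Q_uu_P hQ hP hN h0
    have hQU'P : Q * U' * P = 0 := P_inv_Q hQ hP hN h0 hUU' hU'U
    have hPQ' : ∀ j ∈ J, P * (U * q' j * U') = 0 := by
      intro j hj
      rw [← hq'.sum_mul hj, ← hQdef]
      calc P * (U * (Q * q' j) * U') = (P * U * Q) * q' j * U' := by simp only [mul_assoc]
        _ = 0 := by rw [hPUQ, zero_mul, zero_mul]
    have hQ'P : ∀ j ∈ J, (U * q' j * U') * P = 0 := by
      intro j hj
      rw [← hq'.mul_sum hj, ← hQdef]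
      calc U * (q' j * Q) * U' * P = U * q' j * (Q * U' * P) := by simp only [mul_assoc]
        _ = 0 := by rw [hQU'P, mul_zero]
    let r : ℕ → Cor C X := fun i => if i ∈ I then p' i else if i ∈ J then U * q' i * U' else 0
    have hr1 : ∀ i ∈ I, r i = p' i := fun i hi => if_pos hi
    have hJI : ∀ j ∈ J, j ∉ I := fun j hj => (Finset.mem_sdiff.1 hj).2
    have hr2 : ∀ i ∈ J, r i = U * q' i * U' := fun i hi => by
      show (if i ∈ I then p' i else if i ∈ J then U * q' i * U' else 0) = _
      rw [if_neg (hJI i hi), if_pos hi]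
    have hr3 : ∀ i, i ∉ I → i ∉ J → r i = 0 := fun i h1 h2 => by
      show (if i ∈ I then p' i else if i ∈ J then U * q' i * U' else 0) = _
      rw [if_neg h1, if_neg h2]
    refine complete (H := H) r ?_ ?_ ?_ ?_
    · intro i
      by_cases h1 : i ∈ I
      · rw [hr1 i h1]
        exact hp'.deg i h1
      · by_cases h2 : i ∈ J
        · rw [hr2 i h2]
          exact (cor0 C X).mul_mem ((cor0 C X).mul_mem hUm (hq'.deg i h2)) hU'm
        · rw [hr3 i h1 h2]
          exact (cor0 C X).zero_mem
    · intro i hi
      apply hr3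
      · intro h1
        have := hI h1
        rw [Finset.mem_range] at this
        omega
      · intro h1
        have := (Finset.mem_sdiff.1 h1).1
        rw [Finset.mem_range] at this
        omega
    · intro i j
      by_cases hi : i ∈ I
      · by_cases hj : j ∈ I
        · rw [hr1 i hi, hr1 j hj]
          exact hp'.mul_eq hi hj
        · by_cases hj2 : j ∈ J
          · rw [if_neg (fun h : i = j => hj (h ▸ hi)), hr1 i hi, hr2 j hj2, ← hp'.mul_sum hi, ← hPdef,
              mul_assoc, hPQ' j hj2, mul_zero]
          · rw [hr3 j hj hj2, mul_zero, if_neg (fun h : i = j => hj (h ▸ hi))]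
      · by_cases hi2 : i ∈ J
        · by_cases hj : j ∈ I
          · rw [if_neg (fun h : i = j => hi (h ▸ hj)), hr1 j hj, hr2 i hi2, ← hp'.sum_mul hj, ← hPdef,
              ← mul_assoc, hQ'P i hi2, zero_mul]
          · by_cases hj2 : j ∈ J
            · rw [hr2 i hi2, hr2 j hj2]
              have e1 : U * q' i * U' * (U * q' j * U') = U * (q' i * q' j) * U' := by
                calc U * q' i * U' * (U * q' j * U') = U * q' i * (U' * U) * q' j * U' := by
                      simp only [mul_assoc]
                  _ = U * (q' i * q' j) * U' := by rw [hU'U]; simp only [mul_assoc, one_mul]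
              rw [e1, hq'.mul_eq hi2 hj2]
              split_ifs
              · rfl
              · rw [mul_zero, zero_mul]
            · rw [hr3 j hj hj2, mul_zero, if_neg (fun h : i = j => hj2 (h ▸ hi2))]
        · rw [hr3 i hi hi2, zero_mul]
          split_ifs
          · rfl
          · rfl
    · intro i m a hi ha
      by_cases h1 : i ∈ I
      · rw [hr1 i h1]
        exact hp'.actH_eq h1 m ha
      · have h2 : i ∈ J := Finset.mem_sdiff.2 ⟨Finset.mem_range.2 (by omega), h1⟩
        rw [hr2 i h2, map_mul, map_mul, hUact, hU'act, one_mul, mul_one]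
        exact hq'.actH_eq h2 m ha

end Pool.Agent.Q82.CK
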