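import Mathlib

/-!
# Two idempotents whose product is nilpotent
-/

set_option autoImplicit false
set_option linter.unusedSectionVars false

namespace Pool.Agent.Q82.CK

open Polynomial

section sqrt

/-- Square roots of `1 + X` modulo powers of `X`. -/
lemma exists_sqrt_poly (m : ℕ) : ∃ f : ℚ[X], f.coeff 0 = 1 ∧ (X : ℚ[X]) ^ (m + 1) ∣ f * f - (1 + X) := by
  induction m with
  | zero =>
    refine ⟨1, by simp, ⟨-1, by ring⟩⟩
  | succ m ih =>
    obtain ⟨f, hf, g, hg⟩ := ih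
    obtain ⟨h, hh⟩ : (X : ℚ[X]) ∣ 1 - f := by
      rw [X_dvd_iff]
      simp [hf]
    refine ⟨f - C (1 / 2) * (X ^ (m + 1) * g), ?_, ?_⟩
    · simp [hf, mul_coeff_zero, pow_succ]
    · refine ⟨h * g + C (1 / 4) * X ^ m * g * g, ?_⟩
      have e : (C (1 / 2) : ℚ[X]) * C (1 / 2) = C (1 / 4) := by
        rw [← C_mul]
        norm_num
      have e2 : (C (1 / 2) : ℚ[X]) + C (1 / 2) = 1 := by
        rw [← C_add]
        norm_num
      have hg' : f * f = (1 + X) + X ^ (m + 1) * g := by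
        rw [← hg]
        ring
      have hf' : f = 1 - X * h := by
        rw [← hh]
        ring
      calc (f - C (1 / 2) * (X ^ (m + 1) * g)) * (f - C (1 / 2) * (X ^ (m + 1) * g)) - (1 + X)
          = f * f - (C (1 / 2) + C (1 / 2)) * f * (X ^ (m + 1) * g) +
              (C (1 / 2) * C (1 / 2)) * (X ^ (m + 1) * g) * (X ^ (m + 1) * g) - (1 + X) := by ring
        _ = X ^ (m + 1) * g * (1 - f) + C (1 / 4) * (X ^ (m + 1) * g) * (X ^ (m + 1) * g) := by
          rw [hg', e, e2]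
          ring
        _ = X ^ (m + 1 + 1) * (h * g + C (1 / 4) * X ^ m * g * g) := by
          rw [hh]
          ring

end sqrt

variable {A : Type*} [Ring A]

section two

variable {P Q : A} (hP : P * P = P) (hQ : Q * Q = Q)

/-- The element `(1 - P - Q) ^ 2`. -/
def tt (P Q : A) : A := 1 - P - Q + P * Q + Q * P

include hP hQ

lemma P_tt : P * tt P Q = P * Q * P := by
  rw [tt, mul_add, mul_add, mul_sub, mul_sub, mul_one, hP, ← mul_assoc, hP, ← mul_assoc]
  abel

lemma tt_P : tt P Q * P = P * Q * P := by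
  rw [tt, add_mul, add_mul, sub_mul, sub_mul, one_mul, hP, mul_assoc Q, hP]
  abel

lemma Q_tt : Q * tt P Q = Q * P * Q := by
  rw [tt, mul_add, mul_add, mul_sub, mul_sub, mul_one, hQ, ← mul_assoc Q Q, hQ, ← mul_assoc]
  abel

lemma tt_Q : tt P Q * Q = Q * P * Q := by
  rw [tt, add_mul, add_mul, sub_mul, sub_mul, one_mul, hQ, mul_assoc P, hQ]
  abel

lemma comm_P : Commute (tt P Q) P := (tt_P hP hQ).trans (P_tt hP hQ).symm
lemma comm_Q : Commute (tt P Q) Q := (tt_Q hP hQ).trans (Q_tt hP hQ).symm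

lemma P_pow (n : ℕ) : P * tt P Q ^ n = (P * Q) ^ n * P := by
  induction n with
  | zero => simp
  | succ n ih =>
    rw [pow_succ, ← mul_assoc, ih, mul_assoc, P_tt hP hQ, pow_succ]
    simp only [mul_assoc]

lemma pow_Q (n : ℕ) : tt P Q ^ n * Q = Q * (P * Q) ^ n := by
  induction n with
  | zero => simp
  | succ n ih =>
    rw [pow_succ, mul_assoc, tt_Q hP hQ, ← mul_assoc, ← mul_assoc, ih, pow_succ]
    simp only [mul_assoc]

variable {N : ℕ} (hN : 0 < N) (h0 : (P * Q) ^ N = 0)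

include h0

lemma P_s : P * tt P Q ^ N = 0 := by rw [P_pow hP hQ, h0, zero_mul]
lemma s_P : tt P Q ^ N * P = 0 := by
  rw [((comm_P hP hQ).pow_left N).eq, P_s hP hQ h0]
lemma s_Q : tt P Q ^ N * Q = 0 := by rw [pow_Q hP hQ, h0, mul_zero]
lemma Q_s : Q * tt P Q ^ N = 0 := by
  rw [← ((comm_Q hP hQ).pow_left N).eq, s_Q hP hQ h0]

lemma t_s : tt P Q * tt P Q ^ N = tt P Q ^ N := by
  have h1 : tt P Q * tt P Q ^ N = tt P Q ^ N - P * tt P Q ^ N - Q * tt P Q ^ N +
      P * (Q * tt P Q ^ N) + Q * (P * tt P Q ^ N) := by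
    conv_lhs => rw [show tt P Q * tt P Q ^ N = (1 - P - Q + P * Q + Q * P) * tt P Q ^ N from rfl]
    rw [add_mul, add_mul, sub_mul, sub_mul, one_mul, mul_assoc, mul_assoc]
  rw [h1, P_s hP hQ h0, Q_s hP hQ h0]
  simp

lemma s_t : tt P Q ^ N * tt P Q = tt P Q ^ N := by
  rw [← pow_succ, pow_succ', t_s hP hQ h0]

lemma tn_s (n : ℕ) : tt P Q ^ n * tt P Q ^ N = tt P Q ^ N := by
  induction n with
  | zero => simp
  | succ n ih => rw [pow_succ, mul_assoc, t_s hP hQ h0, ih]

lemma s_s : tt P Q ^ N * tt P Q ^ N = tt P Q ^ N := tn_s hP hQ h0 N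

omit hP hQ h0 in
/-- The unit `P + Q - 2 Q P + s`. -/
def uu (P Q : A) (N : ℕ) : A := P + Q - Q * P - Q * P + tt P Q ^ N

omit h0 in
lemma u_sq : (P + Q - Q * P - Q * P) * (P + Q - Q * P - Q * P) =
    tt P Q - 1 + (P + Q - Q * P - Q * P) + (P + Q - Q * P - Q * P) -
      tt P Q * (P + Q - Q * P - Q * P) - tt P Q * (P + Q - Q * P - Q * P) := by
  have e1 : tt P Q * (P + Q - Q * P - Q * P) =
      P * Q * P + Q * P * Q - Q * P * Q * P - Q * P * Q * P := by
    rw [mul_sub, mul_sub, mul_add, tt_P hP hQ, tt_Q hP hQ, ← mul_assoc, tt_Q hP hQ]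
  rw [e1]
  have a1 : P * (Q * P) = P * Q * P := by rw [mul_assoc]
  have a2 : Q * (Q * P) = Q * P := by rw [← mul_assoc, hQ]
  have a3 : Q * P * P = Q * P := by rw [mul_assoc, hP]
  have a4 : Q * P * (Q * P) = Q * P * Q * P := by simp only [mul_assoc]
  simp only [mul_sub, mul_add, sub_mul, add_mul, hP, hQ, a1, a2, a3, a4]
  rw [tt]
  abel

lemma n_sq : (uu P Q N - 1) * (uu P Q N - 1) = (tt P Q - tt P Q ^ N) *
    (1 - (P + Q - Q * P - Q * P) - (P + Q - Q * P - Q * P)) := by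
  set u := P + Q - Q * P - Q * P with hu
  have su : tt P Q ^ N * u = 0 := by
    rw [hu, mul_sub, mul_sub, mul_add, s_P hP hQ h0, s_Q hP hQ h0, ← mul_assoc, s_Q hP hQ h0]
    simp
  have us : u * tt P Q ^ N = 0 := by
    rw [hu, sub_mul, sub_mul, add_mul, P_s hP hQ h0, Q_s hP hQ h0, mul_assoc, P_s hP hQ h0]
    simp
  have hU : uu P Q N = u + tt P Q ^ N := rfl
  have h1 := u_sq hP hQ
  rw [← hu] at h1
  have h2 := s_s hP hQ h0
  rw [hU]
  have e1 : (u + tt P Q ^ N - 1) * (u + tt P Q ^ N - 1) =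
      u * u + u * tt P Q ^ N + tt P Q ^ N * u + tt P Q ^ N * tt P Q ^ N - u - tt P Q ^ N - u -
        tt P Q ^ N + 1 := by noncomm_ring
  rw [e1, h1, us, su, h2]
  have e2 : (tt P Q - tt P Q ^ N) * (1 - u - u) =
      tt P Q - tt P Q ^ N - tt P Q * u - tt P Q * u + tt P Q ^ N * u + tt P Q ^ N * u := by
    noncomm_ring
  rw [e2, su]
  abel

include hN

/-- The unit is unipotent. -/
lemma n_nilpotent : IsNilpotent (uu P Q N - 1) := by
  set u := P + Q - Q * P - Q * P with hu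
  have su : tt P Q ^ N * u = 0 := by
    rw [hu, mul_sub, mul_sub, mul_add, s_P hP hQ h0, s_Q hP hQ h0, ← mul_assoc, s_Q hP hQ h0]
    simp
  have us : u * tt P Q ^ N = 0 := by
    rw [hu, sub_mul, sub_mul, add_mul, P_s hP hQ h0, Q_s hP hQ h0, mul_assoc, P_s hP hQ h0]
    simp
  have hpow : ∀ j, (tt P Q - tt P Q ^ N) ^ (j + 1) = tt P Q ^ (j + 1) - tt P Q ^ N := by
    intro j
    induction j with
    | zero => simp
    | succ j ih =>
      rw [pow_succ, ih, sub_mul, mul_sub, mul_sub, tn_s hP hQ h0, s_t hP hQ h0, s_s hP hQ h0,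
        ← pow_succ]
      abel
  have hz : (tt P Q - tt P Q ^ N) ^ N = 0 := by
    obtain ⟨j, rfl⟩ := Nat.exists_eq_succ_of_ne_zero hN.ne'
    rw [Nat.succ_eq_add_one, hpow, sub_self]
  have htu : Commute (tt P Q) u := by
    rw [hu]
    exact (((comm_P hP hQ).add_right (comm_Q hP hQ)).sub_right
      ((comm_Q hP hQ).mul_right (comm_P hP hQ))).sub_right
      ((comm_Q hP hQ).mul_right (comm_P hP hQ))
  have hsu : Commute (tt P Q ^ N) u := su.trans us.symm
  have hc : Commute (tt P Q - tt P Q ^ N) (1 - u - u) :=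
    ((Commute.one_right _).sub_right (htu.sub_left hsu)).sub_right (htu.sub_left hsu)
  refine ⟨2 * N, ?_⟩
  rw [pow_mul, pow_two, n_sq hP hQ h0, hc.mul_pow, hz, zero_mul]

/-- Products with the unit. -/
lemma Q_uu_P : Q * uu P Q N * P = 0 := by
  have h : Q * uu P Q N = Q * P + Q * Q - Q * (Q * P) - Q * (Q * P) + Q * tt P Q ^ N := by
    rw [uu]
    noncomm_ring
  rw [h, hQ, ← mul_assoc, hQ, Q_s hP hQ h0, add_zero, sub_mul, sub_mul, add_mul, mul_assoc Q P P, hP]
  abel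

lemma uu_P : uu P Q N * P = P - Q * P := by
  rw [uu, add_mul, sub_mul, sub_mul, add_mul, hP, mul_assoc Q P P, hP, s_P hP hQ h0]
  abel

lemma sub_uu : (1 - Q) * uu P Q N = P - Q * P + tt P Q ^ N := by
  have h : (1 - Q) * uu P Q N = uu P Q N - (Q * P + Q * Q - (Q * Q) * P - (Q * Q) * P +
      Q * tt P Q ^ N) := by
    rw [uu]
    noncomm_ring
  rw [h, hQ, Q_s hP hQ h0, uu]
  abel

lemma uu_s : uu P Q N * tt P Q ^ N = tt P Q ^ N := by
  rw [uu, add_mul, sub_mul, sub_mul, add_mul, P_s hP hQ h0, Q_s hP hQ h0, mul_assoc Q P,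
    P_s hP hQ h0, s_s hP hQ h0]
  simp

lemma s_uu : tt P Q ^ N * uu P Q N = tt P Q ^ N := by
  rw [uu, mul_add, mul_sub, mul_sub, mul_add, s_P hP hQ h0, s_Q hP hQ h0, ← mul_assoc,
    s_Q hP hQ h0, s_s hP hQ h0]
  simp

/-- The inverse of the unit. -/
lemma P_inv_Q {U' : A} (h1 : uu P Q N * U' = 1) (h2 : U' * uu P Q N = 1) : P * U' * Q = 0 := by
  have hs : U' * tt P Q ^ N = tt P Q ^ N := by
    have h3 : U' * (uu P Q N * tt P Q ^ N) = U' * tt P Q ^ N := by rw [uu_s hP hQ hN h0]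
    rw [← mul_assoc, h2, one_mul] at h3
    exact h3.symm
  have h3 : (1 - Q) * uu P Q N = uu P Q N * P + tt P Q ^ N := by
    rw [sub_uu hP hQ hN h0, uu_P hP hQ hN h0]
  have h4 : U' * (1 - Q) = P * U' + tt P Q ^ N * U' := by
    have h5 : U' * ((1 - Q) * uu P Q N) * U' = U' * (uu P Q N * P + tt P Q ^ N) * U' := by rw [h3]
    rw [mul_add, add_mul, ← mul_assoc U' (uu P Q N), h2, one_mul, hs, ← mul_assoc U' (1 - Q),
      mul_assoc (U' * (1 - Q)), h1, mul_one] at h5
    exact h5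
  have hs' : tt P Q ^ N * U' = tt P Q ^ N := by
    have h6 : tt P Q ^ N * uu P Q N * U' = tt P Q ^ N * U' := by rw [s_uu hP hQ hN h0]
    rw [mul_assoc, h1, mul_one] at h6
    exact h6.symm
  have h5 : (P * U' + tt P Q ^ N * U') * Q = 0 := by
    rw [← h4, mul_assoc, sub_mul, one_mul, hQ, sub_self, mul_zero]
  rw [hs', add_mul, s_Q hP hQ h0, add_zero] at h5
  exact h5

end two

section main

variable [Algebra ℚ A]

/-- The unit, its square root and their inverses, as polynomials with constant coefficient one in a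
nilpotent element. -/
theorem exists_units {n : A} (hn : IsNilpotent n) : ∃ f g : ℚ[X], f.coeff 0 = 1 ∧ g.coeff 0 = 1 ∧
    aeval n f * aeval n f = 1 + n ∧ aeval n f * aeval n g = 1 ∧ aeval n g * aeval n f = 1 := by
  obtain ⟨m, hm⟩ := hn
  obtain ⟨f, hf, g, hg⟩ := exists_sqrt_poly m
  have h1 : aeval n f * aeval n f = 1 + n := by
    have h2 := congrArg (aeval n) hg
    rw [map_mul, map_pow, aeval_X, pow_succ, hm, zero_mul, zero_mul, map_sub, map_mul, map_add,
      map_one, aeval_X, sub_eq_zero] at h2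
    exact h2
  -- the inverse of `f`
  obtain ⟨a, b, hab⟩ : IsCoprime f (X ^ (m + 1)) := by
    apply IsCoprime.pow_right
    have : IsCoprime f X := by
      obtain ⟨h, hh⟩ : (X : ℚ[X]) ∣ 1 - f := by
        rw [X_dvd_iff]
        simp [hf]
      refine ⟨1, h, ?_⟩
      have : f = 1 - X * h := by
        rw [← hh]
        ring
      rw [this]
      ring
    exact this
  have h3 : aeval n (a * f) = 1 := by
    have h4 := congrArg (aeval n) hab
    rw [map_add, map_mul _ b, map_pow, aeval_X, pow_succ, hm, zero_mul, mul_zero, add_zero,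
      map_one] at h4
    exact h4
  have h5 : aeval n (f * a) = 1 := by rw [mul_comm, h3]
  refine ⟨f, a, hf, ?_, h1, ?_, ?_⟩
  · have h6 := congrArg (fun q => q.coeff 0) hab
    simpa [mul_coeff_zero, hf] using h6
  · rw [← map_mul, h5]
  · rw [← map_mul, h3]

end main

end Pool.Agent.Q82.CK
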